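import Pool.Agent.Lib.MP_bf05b2_gt.H75Re

/-! In every complex dimension `n = m + 4` there are `n - 2` toric manifolds with isomorphic
cohomology rings and pairwise different homotopy types. -/

namespace Pool.Agent.Results.MP_bf05b2_gt.ManyTypes

open Pool.Agent.Lib.MP_bf05b2_gt

theorem result (m : ℕ) : ∃ F : Fin (m + 2) → Fan (Fin (2 * m + 16)) (Fin (m + 4)),
    (∀ a, (F a).IsSmoothComplete) ∧ (∀ a b, RingIso (F a).T (F b).T) ∧
      ∀ a b, a ≠ b → IsEmpty ((F a).T ≃ₜ (F b).T) ∧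
        IsEmpty (ContinuousMap.HomotopyEquiv (F a).T (F b).T) :=
  let ⟨F, h1, h2, h3⟩ := many_types m
  ⟨F, h1, h2, fun a b h => ⟨⟨fun e => (h3 a b h).false e.toHomotopyEquiv⟩, h3 a b h⟩⟩

end Pool.Agent.Results.MP_bf05b2_gt.ManyTypes
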